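import Pool.Agent.Helper65.SG.Goals

/-!
# Project SG (MP_a41896_nt), module T: packet NQB
-/

set_option autoImplicit false

namespace Pool.Agent.Helper65.SGT

open WeierstrassCurve Height MvPolynomial
open Pool.Agent.Helper29.BL Pool.Agent.Helper92.Ru Pool.Agent.Helper42.SG Pool.Agent.Helper65.SG

theorem t_NQB (h1 : FRPO) (h2 : NQA) : NQB := by
  intro K _ _ W n M δ hn
  obtain ⟨B, hB, hP⟩ := h2 K W n M δ hn
  refine ⟨fun v => B v ^ 4 ^ n, ⟨fun v => one_le_pow₀ (hB.one_le v), ?_⟩, ?_⟩
  · refine Set.Finite.subset hB.fin ?_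
    intro v hv
    rw [Function.mem_support] at hv ⊢
    intro h0
    apply hv
    show Real.log (B v.val ^ 4 ^ n) = 0
    have h00 : Real.log (B v.val) = 0 := h0
    rw [Real.log_pow, h00, mul_zero]
  · intro e c v s hs hc
    obtain ⟨hN, hX, -⟩ := h1 K v (Fin (2 * n + 2) ⊕ Fin (2 * n + 2))
    have hsg : ∀ ε : ℤˣ, NPol (K := K) v
        ((((ε : ℤˣ) : ℤ) : GR K n)) 1 := by
      intro ε
      have e1 : (((ε : ℤˣ) : ℤ) : GR K n) = algebraMap K (GR K n) (((ε : ℤˣ) : ℤ) : K) := by
        rw [map_intCast]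
      have e2 : v (((ε : ℤˣ) : ℤ) : K) = 1 := by
        rcases Int.units_eq_one_or ε with rfl | rfl
        · simp
        · simp
      have e3 := hN.const (((ε : ℤˣ) : ℤ) : K)
      rw [e2] at e3
      rw [e1]
      exact e3
    have hgX : ∀ h < 2 * n + 2, NPol v (gX K n h) 1 := by
      intro h hh
      unfold gX
      rw [dif_pos hh]
      exact hX _
    have hgP : ∀ h < 2 * n + 2, NPol v (gP K n h) 1 := by
      intro h hh
      unfold gP
      rw [dif_pos hh]
      exact hX _
    have hfac : ∀ ε, NPol v (Pe W n M δ e c ε) (s * B v ^ sq n e) := by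
      intro ε
      refine hP e c v s (GR K n) (NPol v) (gX K n) (sgn n ε (gP K n)) hN hs hc hgX ?_
      intro h hh
      unfold sgn
      split_ifs with H
      · have := hN.mul _ _ _ _ (hsg (ε ⟨h, H⟩)) (hgP h hh)
        rwa [one_mul] at this
      · exact hgP h hh
    have hprod : ∀ S : Finset (Fin (2 * n) → ℤˣ),
        NPol v (∏ ε ∈ S, Pe W n M δ e c ε) ((s * B v ^ sq n e) ^ S.card) := by
      classical
      intro S
      induction S using Finset.induction_on with
      | empty =>
        have := hN.const 1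
        rw [map_one, map_one] at this
        simpa using this
      | insert a S ha ih =>
        rw [Finset.prod_insert ha, Finset.card_insert_of_notMem ha, pow_succ']
        exact hN.mul _ _ _ _ (hfac a) ih
    have h3 := hprod Finset.univ
    have h4 : (2 : ℕ) ^ (2 * n) = 4 ^ n := by
      rw [pow_mul]
      norm_num
    have h5 : (s * B v ^ sq n e) ^ (Finset.univ : Finset (Fin (2 * n) → ℤˣ)).card
        = s ^ (4 ^ n) * (B v ^ 4 ^ n) ^ sq n e := by
      rw [Finset.card_univ, Fintype.card_fun, Fintype.card_units_int, Fintype.card_fin, h4,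
        mul_pow, ← pow_mul, ← pow_mul, mul_comm (sq n e)]
    rw [h5] at h3
    exact h3

end Pool.Agent.Helper65.SGT
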