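import Pool.Agent.Helper65.SG.Goals

/-!
# Project SG (MP_a41896_nt), packet NQN: naturality of the auxiliary function
-/

set_option autoImplicit false

namespace Pool.Agent.Helper65.SGT

open Pool.Agent.Helper42.SG Pool.Agent.Helper65.SG

section

variable {A A' : Type} [CommRing A] [CommRing A'] (φ : A →+* A') (U : WeierstrassCurve A)
  (U' : WeierstrassCurve A')

/-- the `b` invariants correspond -/
structure Bc : Prop where
  b2 : φ U.b₂ = U'.b₂
  b4 : φ U.b₄ = U'.b₄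
  b6 : φ U.b₆ = U'.b₆
  b8 : φ U.b₈ = U'.b₈

variable {φ U U'}

theorem Ah_nat (h : Bc φ U U') (t z : A) : φ (Ah U t z) = Ah U' (φ t) (φ z) := by
  unfold Ah
  simp only [map_sub, map_mul, map_pow, h.b4, h.b6, h.b8, map_ofNat]

theorem Bh_nat (h : Bc φ U U') (t z : A) : φ (Bh U t z) = Bh U' (φ t) (φ z) := by
  unfold Bh
  simp only [map_add, map_mul, map_pow, h.b2, h.b4, h.b6, map_ofNat]

theorem Ch_nat (h : Bc φ U U') (t z : A) : φ (Ch U t z) = Ch U' (φ t) (φ z) := by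
  unfold Ch
  simp only [map_add, map_sub, map_mul, map_pow, h.b2, h.b4, h.b6, h.b8, map_ofNat]

theorem Ph_nat (h : Bc φ U U') (e : ℕ) (x : A) : φ (Ph U e x).1 = (Ph U' e (φ x)).1 ∧
    φ (Ph U e x).2 = (Ph U' e (φ x)).2 := by
  induction e with
  | zero => exact ⟨rfl, map_one φ⟩
  | succ e ih =>
    refine ⟨?_, ?_⟩
    · show φ (Ah U (Ph U e x).1 (Ph U e x).2) = Ah U' (Ph U' e (φ x)).1 (Ph U' e (φ x)).2
      rw [Ah_nat h, ih.1, ih.2]
    · show φ (Bh U (Ph U e x).1 (Ph U e x).2) = Bh U' (Ph U' e (φ x)).1 (Ph U' e (φ x)).2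
      rw [Bh_nat h, ih.1, ih.2]

theorem Rr_nat (h : Bc φ U U') (e : ℕ) (x : A) : φ (Rr U e x) = Rr U' e (φ x) := by
  induction e with
  | zero => exact map_one φ
  | succ e ih =>
    show φ (Rr U e x * Ch U (Ph U e x).1 (Ph U e x).2) =
      Rr U' e (φ x) * Ch U' (Ph U' e (φ x)).1 (Ph U' e (φ x)).2
    rw [map_mul, ih, Ch_nat h, (Ph_nat h e x).1, (Ph_nat h e x).2]

theorem Th_nat (h : Bc φ U U') (c t z : A) : φ (Th U c t z) = Th U' (φ c) (φ t) (φ z) := by
  unfold Th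
  simp only [map_add, map_mul, map_pow, h.b2, h.b4, h.b6, map_ofNat]

theorem Sh_nat (h : Bc φ U U') (c t z : A) : φ (Sh U c t z) = Sh U' (φ c) (φ t) (φ z) := by
  unfold Sh
  simp only [map_add, map_sub, map_mul, map_pow, h.b4, h.b6, h.b8]

theorem Uh_nat (φ : A →+* A') (c t z : A) : φ (Uh c t z) = Uh (φ c) (φ t) (φ z) := by
  unfold Uh
  simp only [map_sub, map_mul, map_pow]

theorem law_nat (h : Bc φ U U') (e : ℕ) (l : Bool) (x c η : A) :
    φ (law U e l x c η).1 = (law U' e l (φ x) (φ c) (φ η)).1 ∧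
    φ (law U e l x c η).2 = (law U' e l (φ x) (φ c) (φ η)).2 := by
  have h1 := (Ph_nat h e x).1
  have h2 := (Ph_nat h e x).2
  cases l with
  | true =>
    refine ⟨?_, ?_⟩
    · show φ (Th U c (Ph U e x).1 (Ph U e x).2 - η * Rr U e x) =
        Th U' (φ c) (Ph U' e (φ x)).1 (Ph U' e (φ x)).2 - φ η * Rr U' e (φ x)
      rw [map_sub, map_mul, Th_nat h, Rr_nat h, h1, h2]
    · show φ (2 * Sh U c (Ph U e x).1 (Ph U e x).2) =
        2 * Sh U' (φ c) (Ph U' e (φ x)).1 (Ph U' e (φ x)).2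
      rw [map_mul, Sh_nat h, h1, h2, map_ofNat]
  | false =>
    refine ⟨?_, ?_⟩
    · show φ (2 * Uh c (Ph U e x).1 (Ph U e x).2) =
        2 * Uh (φ c) (Ph U' e (φ x)).1 (Ph U' e (φ x)).2
      rw [map_mul, Uh_nat, h1, h2, map_ofNat]
    · show φ (Th U c (Ph U e x).1 (Ph U e x).2 + η * Rr U e x) =
        Th U' (φ c) (Ph U' e (φ x)).1 (Ph U' e (φ x)).2 + φ η * Rr U' e (φ x)
      rw [map_add, map_mul, Th_nat h, Rr_nat h, h1, h2]

end

theorem bc_mapW {K : Type} [Field K] {A A' : Type} [CommRing A] [CommRing A'] [Algebra K A]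
    [Algebra K A'] (φ : A →ₐ[K] A') (W : ℕ → WeierstrassCurve.Affine K) (i : ℕ) :
    Bc (φ : A →+* A') (mapW A W i) (mapW A' W i) := by
  unfold mapW
  refine ⟨?_, ?_, ?_, ?_⟩
  · rw [WeierstrassCurve.map_b₂, WeierstrassCurve.map_b₂]
    exact φ.commutes _
  · rw [WeierstrassCurve.map_b₄, WeierstrassCurve.map_b₄]
    exact φ.commutes _
  · rw [WeierstrassCurve.map_b₆, WeierstrassCurve.map_b₆]
    exact φ.commutes _
  · rw [WeierstrassCurve.map_b₈, WeierstrassCurve.map_b₈]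
    exact φ.commutes _

theorem t_NQN : Pool.Agent.Helper65.SG.NQN := by
  intro K _ W n M δ e c A A' _ _ _ _ φ X Ψ X' Ψ' h
  unfold P0 Paux
  rw [map_sum]
  refine Finset.sum_congr rfl fun α _ => ?_
  rw [map_mul, map_mul, map_prod, map_prod, φ.commutes]
  congr 1
  · congr 1
    refine Finset.prod_congr rfl fun k _ => ?_
    have hk : k.val < 2 * n + 2 := by have := k.2; omega
    have hk2 : 2 * n + k.val % 2 < 2 * n + 2 := by have := Nat.mod_lt k.val (show 0 < 2 by omega); omega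
    have h1 := law_nat (bc_mapW φ W (k.val % 2)) (e (k.val / 2)) false (X k.val)
      (X (2 * n + k.val % 2)) (Ψ k.val * Ψ (2 * n + k.val % 2))
    have h2 : (φ : A →+* A') (X k.val) = X' k.val := (h _ hk).1
    have h3 : (φ : A →+* A') (X (2 * n + k.val % 2)) = X' (2 * n + k.val % 2) := (h _ hk2).1
    have h4 : (φ : A →+* A') (Ψ k.val) = Ψ' k.val := (h _ hk).2
    have h5 : (φ : A →+* A') (Ψ (2 * n + k.val % 2)) = Ψ' (2 * n + k.val % 2) := (h _ hk2).2
    rw [map_mul, h2, h3, h4, h5] at h1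
    rw [map_mul, map_mul, map_pow, map_pow, map_pow, (h _ hk).1]
    have h6 : φ (lawV (mapW A W) n e (fun _ => false) X Ψ k.val).1 =
        (lawV (mapW A' W) n e (fun _ => false) X' Ψ' k.val).1 := h1.1
    have h7 : φ (lawV (mapW A W) n e (fun _ => false) X Ψ k.val).2 =
        (lawV (mapW A' W) n e (fun _ => false) X' Ψ' k.val).2 := h1.2
    rw [h6, h7]
  · refine Finset.prod_congr rfl fun k _ => ?_
    rw [map_pow, (h (2 * n + k.val) (by have := k.2; omega)).1]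

end Pool.Agent.Helper65.SGT
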