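import Pool.Agent.Helper65.SG.NQ
import Pool.Agent.Helper12.SGB.All
import Pool.Agent.Helper12.SGM.NZF
import Pool.Agent.Helper2.SGT.NQR
import Pool.Agent.Helper14.SGT.NQV
import Pool.Agent.Helper23.SGT.NQW
import Pool.Agent.Helper30.SGT.NZ1
import Pool.Agent.Helper32.SGT.NZV
import Pool.Agent.Helper40.SGT.NQD
import Pool.Agent.Helper65.SG.NQN
import Pool.Agent.Helper71.SGT.NQH
import Pool.Agent.Helper73.SGT.FRPO
import Pool.Agent.Helper65.SG.NQB
import Pool.Agent.Helper89.SGT.NQE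
import Pool.Agent.Helper90.SGT.NQA
import Pool.Agent.Helper91.SGT.NQI

/-!
# Project SG (MP_a41896_nt), module T: the goals of `Helper42/SG/GoalsT.lean` are theorems
-/

set_option autoImplicit false

namespace Pool.Agent.Helper65.SG

open Pool.Agent.Helper42.SG

theorem th_FRPS : FRPS := t_FRPS

theorem th_FRPT : FRPT := t_FRPT

theorem th_TAY : TAY := t_TAY

theorem th_FRPO : FRPO := Pool.Agent.Helper73.SGT.t_FRPO th_FRPS

theorem th_NZ1 : NZ1 := Pool.Agent.Helper30.SGT.t_NZ1 Pool.Agent.Helper12.SGB.th_RPOL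
  Pool.Agent.Helper12.SGB.th_EDUP

theorem th_NZV : NZV := Pool.Agent.Helper32.SGT.t_NZV th_NZ1 Pool.Agent.Helper12.SGB.th_ELAW

theorem th_NZF : NZF := Pool.Agent.Helper12.SGM.t_NZF th_NZV

theorem th_NQB : NQB := Pool.Agent.Helper65.SGT.t_NQB th_FRPO Pool.Agent.Helper90.SGT.t_NQA

theorem th_NQE : NQE := Pool.Agent.Helper89.SGT.t_NQE Pool.Agent.Helper65.SGT.t_NQN

theorem th_NQ : NQ :=
  t_NQ th_NZF th_FRPO th_NQB Pool.Agent.Helper23.SGT.t_NQW Pool.Agent.Helper65.SGT.t_NQN th_NQE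
    Pool.Agent.Helper14.SGT.t_NQV Pool.Agent.Helper40.SGT.t_NQD
    (Pool.Agent.Helper2.SGT.t_NQR th_FRPO) Pool.Agent.Helper71.SGT.t_NQH

theorem th_QIX : QIX := t_QIX Pool.Agent.Helper91.SGT.t_NQI

end Pool.Agent.Helper65.SG
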