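import Pool.Agent.Helper65.SG.Frame
import Pool.Agent.Helper42.SG.GoalsT

/-!
# Project SG, module T: FRPS, FRPT, TAY
-/

set_option autoImplicit false

namespace Pool.Agent.Helper65.SG

open WeierstrassCurve Height
open Pool.Agent.Helper29.BL Pool.Agent.Helper92.Ru Pool.Agent.Helper42.SG

theorem t_FRPS : FRPS := by
  intro K _ v σ _ r hr
  refine ⟨nfr_nps v hr, fun f T α h => ?_⟩
  have := coeff_le_of_nps hr h α
  rwa [le_div_iff₀ (rpw_pos hr α)] at this

theorem t_FRPT : FRPT := by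
  intro K _ v
  refine ⟨?_, ?_, ?_, ?_, ?_, ?_⟩
  · intro k
    simp
  · intro f g S T hf hg
    rw [map_mul]
    exact mul_le_mul hf hg (v.nonneg _) ((v.nonneg _).trans hf)
  · intro f g S T hf hg
    exact (v.add_le _ _).trans (add_le_add hf hg)
  · intro hv f g S T hf hg
    exact (hv _ _).trans (max_le_max hf hg)
  · intro f S T hf hST
    exact hf.trans hST
  · intro f T hf
    exact (v.nonneg _).trans hf

section frame

variable {K : Type} [Field K] {v : AbsoluteValue K ℝ} {A : Type} [CommRing A] [Algebra K A]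
  {N : A → ℝ → Prop}

/-- the constant `2` at archimedean, `1` at nonarchimedean places -/
noncomputable abbrev c2 (v : AbsoluteValue K ℝ) : ℝ := cst v 2

lemma one_le_c2 (v : AbsoluteValue K ℝ) : 1 ≤ c2 v := one_le_cst v (by norm_num)

lemma frame_add (hN : NFr v N) {f g : A} {S : ℝ} (hf : N f S) (hg : N g S) :
    N (f + g) (c2 v * S) := by
  by_cases hv : IsNonarchimedean v
  · have := hN.max hv f g S S hf hg
    rw [c2, cst_of_nonarch hv, one_mul]
    rwa [max_self] at this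
  · have := hN.add f g S S hf hg
    rw [c2, cst_of_not_nonarch hv]
    rwa [← two_mul] at this

lemma frame_one (hN : NFr v N) : N 1 1 := by
  have := hN.const 1
  simpa using this

lemma frame_neg (hN : NFr v N) {f : A} {S : ℝ} (hf : N f S) : N (-f) S := by
  have h := hN.const (-1)
  have h2 := hN.mul _ _ _ _ h hf
  simpa using h2

lemma frame_pow (hN : NFr v N) {f : A} {S : ℝ} (hf : N f S) (k : ℕ) : N (f ^ k) (S ^ k) := by
  induction k with
  | zero => simpa using frame_one hN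
  | succ k ih => rw [pow_succ, pow_succ]; exact hN.mul _ _ _ _ ih hf

lemma frame_two (hN : NFr v N) : N 2 (c2 v) := by
  have := frame_add hN (frame_one hN) (frame_one hN)
  rw [one_add_one_eq_two] at this
  simpa using this

lemma v_two (v : AbsoluteValue K ℝ) : v 2 ≤ c2 v := frame_two (A := K) (t_FRPT K v)

end frame

section tay

variable {K : Type} [Field K]

/-- the product of the `bet` of the two curves -/
noncomputable def b01 (W : ℕ → Affine K) (v : AbsoluteValue K ℝ) : ℝ := bet (W 0) v * bet (W 1) v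

lemma one_le_b01 (W : ℕ → Affine K) (v : AbsoluteValue K ℝ) : 1 ≤ b01 W v :=
  one_le_mul_of_one_le_of_one_le (one_le_bet _ _) (one_le_bet _ _)

lemma bet_le_b01 (W : ℕ → Affine K) (v : AbsoluteValue K ℝ) (h : ℕ) :
    bet (W (h % 2)) v ≤ b01 W v := by
  rcases Nat.mod_two_eq_zero_or_one h with h | h
  · rw [h, b01]; exact le_mul_of_one_le_right (bet_pos _ _).le (one_le_bet _ _)
  · rw [h, b01]; exact le_mul_of_one_le_left (bet_pos _ _).le (one_le_bet _ _)

/-- the place constant of `TAY` -/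
noncomputable def BT (W : ℕ → Affine K) (v : AbsoluteValue K ℝ) : ℝ := c2 v ^ 10 * b01 W v

end tay

section estimates

variable {K : Type} [Field K]

/-- The local estimates: `p = B'(ξ)`, `q = 4 (12 ξ + b₂) ψ²`, `s = 64 ψ⁴`. -/
lemma tay_est (W : Affine K) (v : AbsoluteValue K ℝ) (β : ℝ) (hβ : bet W v ≤ β) (ξ ψ : K)
    (hψ : ψ ^ 2 = Bf W ξ) :
    v (12 * ξ ^ 2 + 2 * W.b₂ * ξ + 2 * W.b₄) ≤ c2 v ^ 6 * β * Mv v ξ ^ 2 ∧
    v (4 * (12 * ξ + W.b₂) * ψ ^ 2) ≤ c2 v ^ 11 * β ^ 2 * Mv v ξ ^ 4 ∧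
    v (64 * ψ ^ 4) ≤ c2 v ^ 14 * β ^ 2 * Mv v ξ ^ 6 ∧
    v (4 * ψ ^ 2) ≤ c2 v ^ 6 * β * Mv v ξ ^ 3 ∧
    v ψ ≤ c2 v ^ 2 * β * Mv v ξ ^ 2 := by
  have hN := t_FRPT K v
  have hc := one_le_c2 v
  have hc0 : 0 < c2 v := lt_of_lt_of_le one_pos hc
  have hM := one_le_Mv v ξ
  have hM0 := Mv_pos v ξ
  have hβ1 : 1 ≤ β := (one_le_bet W v).trans hβ
  have hβ0 : 0 < β := lt_of_lt_of_le one_pos hβ1
  have h2 : v 2 ≤ c2 v := v_two v
  have hξ : v ξ ≤ Mv v ξ := le_max_right _ _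
  have hb2 : v W.b₂ ≤ β := ((le_max_left _ _).trans (le_max_right _ _)).trans hβ
  have hb4 : v W.b₄ ≤ β :=
    ((le_max_left _ _).trans ((le_max_right _ _).trans (le_max_right _ _))).trans hβ
  have hb6 : v W.b₆ ≤ β := ((le_max_left _ _).trans ((le_max_right _ _).trans
    ((le_max_right _ _).trans (le_max_right _ _)))).trans hβ
  have add : ∀ {x y : K} {S : ℝ}, v x ≤ S → v y ≤ S → v (x + y) ≤ c2 v * S :=
    fun hx hy => frame_add hN hx hy
  have mul : ∀ {x y : K} {S T : ℝ}, v x ≤ S → v y ≤ T → v (x * y) ≤ S * T :=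
    fun hx hy => hN.mul _ _ _ _ hx hy
  have pow : ∀ {x : K} {S : ℝ}, v x ≤ S → ∀ k : ℕ, v (x ^ k) ≤ S ^ k :=
    fun hx k => frame_pow hN hx k
  have h4 : v 4 ≤ c2 v ^ 2 := by
    have := pow h2 2
    norm_num at this ⊢
    exact this
  have h12 : v 12 ≤ c2 v ^ 4 := by
    have h1 : v (8 + 4 : K) ≤ c2 v * c2 v ^ 3 := by
      refine add ?_ (h4.trans (pow_le_pow_right₀ hc (by norm_num)))
      have := pow h2 3
      norm_num at this ⊢
      exact this
    norm_num at h1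
    calc v 12 ≤ _ := h1
      _ = _ := by ring
  have h64 : v 64 ≤ c2 v ^ 6 := by
    have := pow h2 6
    norm_num at this ⊢
    exact this
  -- `M ^ i ≤ M ^ j`
  have hMp : ∀ i j : ℕ, i ≤ j → Mv v ξ ^ i ≤ Mv v ξ ^ j := fun i j h => pow_le_pow_right₀ hM h
  have hcp : ∀ i j : ℕ, i ≤ j → c2 v ^ i ≤ c2 v ^ j := fun i j h => pow_le_pow_right₀ hc h
  -- `B'(ξ)`
  have e1 : v (12 * ξ ^ 2) ≤ c2 v ^ 4 * β * Mv v ξ ^ 2 := by
    refine (mul h12 (pow hξ 2)).trans ?_
    refine mul_le_mul_of_nonneg_right ?_ (by positivity)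
    exact le_mul_of_one_le_right (by positivity) hβ1
  have e2 : v (2 * W.b₂ * ξ) ≤ c2 v ^ 4 * β * Mv v ξ ^ 2 := by
    refine (mul (mul h2 hb2) hξ).trans ?_
    have := hMp 1 2 (by norm_num)
    have := hcp 1 4 (by norm_num)
    rw [pow_one] at *
    gcongr
  have e3 : v (2 * W.b₄) ≤ c2 v ^ 4 * β * Mv v ξ ^ 2 := by
    refine (mul h2 hb4).trans ?_
    have h1 := hMp 0 2 (by norm_num)
    have h3 := hcp 1 4 (by norm_num)
    rw [pow_one] at h3
    rw [pow_zero] at h1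
    calc c2 v * β = c2 v * β * 1 := by ring
      _ ≤ c2 v ^ 4 * β * Mv v ξ ^ 2 := by gcongr
  have e4 : v (12 * ξ ^ 2 + 2 * W.b₂ * ξ + 2 * W.b₄) ≤ c2 v ^ 6 * β * Mv v ξ ^ 2 := by
    have h1 := add (add e1 e2) (e3.trans (le_mul_of_one_le_left (by positivity) hc))
    refine h1.trans (le_of_eq (by ring))
  -- `ψ²`
  have e5 : v (ψ ^ 2) ≤ c2 v ^ 4 * β * Mv v ξ ^ 3 := by
    rw [hψ, Bf]
    have f1 : v (4 * ξ ^ 3) ≤ c2 v ^ 2 * β * Mv v ξ ^ 3 := by
      refine (mul h4 (pow hξ 3)).trans ?_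
      refine mul_le_mul_of_nonneg_right ?_ (by positivity)
      exact le_mul_of_one_le_right (by positivity) hβ1
    have f2 : v (W.b₂ * ξ ^ 2) ≤ c2 v ^ 2 * β * Mv v ξ ^ 3 := by
      refine (mul hb2 (pow hξ 2)).trans ?_
      have h1 := hMp 2 3 (by norm_num)
      have h3 := hcp 0 2 (by norm_num)
      rw [pow_zero] at h3
      calc β * Mv v ξ ^ 2 = 1 * β * Mv v ξ ^ 2 := by ring
        _ ≤ c2 v ^ 2 * β * Mv v ξ ^ 3 := by gcongr
    have f3 : v (2 * W.b₄ * ξ) ≤ c2 v ^ 2 * β * Mv v ξ ^ 3 := by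
      refine (mul (mul h2 hb4) hξ).trans ?_
      have h1 := hMp 1 3 (by norm_num)
      have h3 := hcp 1 2 (by norm_num)
      rw [pow_one] at h1 h3
      gcongr
    have f4 : v W.b₆ ≤ c2 v ^ 2 * β * Mv v ξ ^ 3 := by
      refine hb6.trans ?_
      have h1 := hMp 0 3 (by norm_num)
      have h3 := hcp 0 2 (by norm_num)
      rw [pow_zero] at h1 h3
      calc β = 1 * β * 1 := by ring
        _ ≤ c2 v ^ 2 * β * Mv v ξ ^ 3 := by gcongr
    have h1 := add (add f1 f2) (f3.trans (le_mul_of_one_le_left (by positivity) hc))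
    have h3 : v (4 * ξ ^ 3 + W.b₂ * ξ ^ 2 + 2 * W.b₄ * ξ + W.b₆) ≤
        c2 v * (c2 v * (c2 v ^ 2 * β * Mv v ξ ^ 3)) ∨ True := Or.inr trivial
    have h5 : v ((4 * ξ ^ 3 + W.b₂ * ξ ^ 2) + (2 * W.b₄ * ξ + W.b₆)) ≤
        c2 v * (c2 v * (c2 v ^ 2 * β * Mv v ξ ^ 3)) := add (add f1 f2) (add f3 f4)
    have h6 : (4 * ξ ^ 3 + W.b₂ * ξ ^ 2 + 2 * W.b₄ * ξ + W.b₆) =
        (4 * ξ ^ 3 + W.b₂ * ξ ^ 2) + (2 * W.b₄ * ξ + W.b₆) := by ring
    rw [h6]
    exact h5.trans (le_of_eq (by ring))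
  have e6 : v (12 * ξ + W.b₂) ≤ c2 v ^ 5 * β * Mv v ξ := by
    have f1 : v (12 * ξ) ≤ c2 v ^ 4 * β * Mv v ξ := by
      refine (mul h12 hξ).trans ?_
      refine mul_le_mul_of_nonneg_right ?_ (by positivity)
      exact le_mul_of_one_le_right (by positivity) hβ1
    have f2 : v W.b₂ ≤ c2 v ^ 4 * β * Mv v ξ := by
      refine hb2.trans ?_
      have h3 := hcp 0 4 (by norm_num)
      rw [pow_zero] at h3
      calc β = 1 * β * 1 := by ring
        _ ≤ c2 v ^ 4 * β * Mv v ξ := by gcongr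
    exact (add f1 f2).trans (le_of_eq (by ring))
  refine ⟨e4, ?_, ?_, ?_, ?_⟩
  · refine (mul (mul h4 e6) e5).trans (le_of_eq (by ring))
  · have : (64 * ψ ^ 4 : K) = 64 * (ψ ^ 2) ^ 2 := by ring
    rw [this]
    refine (mul h64 (pow e5 2)).trans (le_of_eq (by ring))
  · refine (mul h4 e5).trans (le_of_eq (by ring))
  · rw [map_pow] at e5
    refine le_of_sq_le_sq ?_ (by positivity)
    refine e5.trans ?_
    have h1 := hMp 3 4 (by norm_num)
    calc c2 v ^ 4 * β * Mv v ξ ^ 3 ≤ c2 v ^ 4 * β ^ 2 * Mv v ξ ^ 4 := by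
          gcongr
          exact le_self_pow₀ hβ1 (by norm_num)
      _ = (c2 v ^ 2 * β * Mv v ξ ^ 2) ^ 2 := by ring

end estimates

section series

variable {K : Type} [Field K]

lemma tay_point (W : Affine K) {σ : Type} (i : σ) (ξ ψ : K) (hψ : ψ ^ 2 = Bf W ξ) :
    ∃ P : MvPowerSeries σ K,
      P ^ 2 = Bf (W.map (algebraMap K (MvPowerSeries σ K)))
        (MvPowerSeries.C ξ + MvPowerSeries.C (4 * ψ ^ 2) * MvPowerSeries.X i) ∧
      MvPowerSeries.constantCoeff P = ψ ∧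
      ∀ (v : AbsoluteValue K ℝ) (r : σ → ℝ) (β : ℝ), (∀ i, 0 < r i) → bet W v ≤ β →
        r i = 1 / (c2 v ^ 10 * β * Mv v ξ ^ 2) →
        NPS v r (MvPowerSeries.C ξ + MvPowerSeries.C (4 * ψ ^ 2) * MvPowerSeries.X i)
          (c2 v * Mv v ξ) ∧
        NPS v r P (c2 v ^ 10 * β * Mv v ξ ^ 2) := by
  obtain ⟨g, hg⟩ : ∃ g : MvPowerSeries σ K, g = MvPowerSeries.X i *
    (MvPowerSeries.C (12 * ξ ^ 2 + 2 * W.b₂ * ξ + 2 * W.b₄) +
      MvPowerSeries.C (4 * (12 * ξ + W.b₂) * ψ ^ 2) * MvPowerSeries.X i +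
      MvPowerSeries.C (64 * ψ ^ 4) * MvPowerSeries.X i ^ 2) := ⟨_, rfl⟩
  have hg0 : MvPowerSeries.constantCoeff g = 0 := by
    rw [hg, map_mul, MvPowerSeries.constantCoeff_X, zero_mul]
  obtain ⟨y, hy, hyn⟩ := sqrt_series g hg0
  refine ⟨MvPowerSeries.C ψ * (1 + 2 * g * y), ?_, ?_, ?_⟩
  · have hE := congrArg (MvPowerSeries.C (σ := σ) (R := K)) hψ
    have ha : ∀ x : K, algebraMap K (MvPowerSeries σ K) x = MvPowerSeries.C x := fun x => by
      rw [MvPowerSeries.algebraMap_apply, Algebra.algebraMap_self_apply]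
    rw [mul_pow, hy, hg]
    unfold Bf at hE ⊢
    simp only [WeierstrassCurve.map_b₂, WeierstrassCurve.map_b₄, WeierstrassCurve.map_b₆, ha,
      map_add, map_mul, map_pow, map_ofNat] at hE ⊢
    linear_combination hE
  · rw [map_mul, MvPowerSeries.constantCoeff_C, map_add, map_mul, map_mul, hg0]
    simp
  · intro v r β hr hβ hri
    have hN := nfr_nps (K := K) v hr
    have hc := one_le_c2 v
    have hc0 : 0 < c2 v := lt_of_lt_of_le one_pos hc
    have hM := one_le_Mv v ξ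
    have hM0 := Mv_pos v ξ
    have hβ1 : 1 ≤ β := (one_le_bet W v).trans hβ
    have hβ0 : 0 < β := lt_of_lt_of_le one_pos hβ1
    obtain ⟨e1, e2, e3, e4, e5⟩ := tay_est W v β hβ ξ ψ hψ
    have hC : ∀ (x : K) (T : ℝ), v x ≤ T → NPS v r (MvPowerSeries.C x) T := by
      intro x T hx
      have := hN.const x
      rw [MvPowerSeries.algebraMap_apply, Algebra.algebraMap_self_apply] at this
      exact hN.mono _ _ _ this hx
    have hX : NPS v r (MvPowerSeries.X i : MvPowerSeries σ K) (r i) := nps_X hr i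
    have hcp : ∀ i j : ℕ, i ≤ j → c2 v ^ i ≤ c2 v ^ j := fun i j h => pow_le_pow_right₀ hc h
    -- norm of `g`
    have n1 := hC _ _ e1
    have n2 : NPS v r (MvPowerSeries.C (4 * (12 * ξ + W.b₂) * ψ ^ 2) * MvPowerSeries.X i)
        (c2 v ^ 6 * β * Mv v ξ ^ 2) := by
      refine hN.mono _ _ _ (hN.mul _ _ _ _ (hC _ _ e2) hX) ?_
      rw [hri, mul_one_div, div_le_iff₀ (by positivity)]
      calc c2 v ^ 11 * β ^ 2 * Mv v ξ ^ 4 ≤ c2 v ^ 16 * β ^ 2 * Mv v ξ ^ 4 := by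
            have := hcp 11 16 (by norm_num)
            gcongr
        _ = _ := by ring
    have n3 : NPS v r (MvPowerSeries.C (64 * ψ ^ 4) * MvPowerSeries.X i ^ 2)
        (c2 v ^ 6 * β * Mv v ξ ^ 2) := by
      refine hN.mono _ _ _ (hN.mul _ _ _ _ (hC _ _ e3) (frame_pow hN hX 2)) ?_
      rw [hri, div_pow, one_pow, mul_one_div, div_le_iff₀ (by positivity)]
      calc c2 v ^ 14 * β ^ 2 * Mv v ξ ^ 6 ≤ c2 v ^ 26 * β ^ 3 * Mv v ξ ^ 6 := by
            have := hcp 14 26 (by norm_num)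
            have := pow_le_pow_right₀ hβ1 (show 2 ≤ 3 by norm_num)
            gcongr
        _ = _ := by ring
    have n4 : NPS v r g (1 / c2 v ^ 2) := by
      have h1 := frame_add hN (frame_add hN n1 n2)
        (hN.mono _ _ _ n3 (le_mul_of_one_le_left (by positivity) hc))
      have h2 := hN.mul _ _ _ _ hX h1
      rw [hg]
      refine hN.mono _ _ _ h2 (le_of_eq ?_)
      rw [hri]
      field_simp
    have n5 : NPS v r y (c2 v) := by
      by_cases hv : IsNonarchimedean v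
      · have hc1 : c2 v = 1 := cst_of_nonarch hv 2
        rw [hc1] at n4 ⊢
        exact (hyn v r hr).2 hv (by simpa using n4)
      · have hc1 : c2 v = 2 := cst_of_not_nonarch hv 2
        rw [hc1] at n4 ⊢
        exact (hyn v r hr).1 (hN.mono _ _ _ n4 (by norm_num))
    have n6 : NPS v r (1 + 2 * g * y) (c2 v) := by
      have h1 := hN.mul _ _ _ _ (hN.mul _ _ _ _ (frame_two hN) n4) n5
      have h2 : c2 v * (1 / c2 v ^ 2) * c2 v = 1 := by field_simp
      rw [h2] at h1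
      have := frame_add hN (frame_one hN) h1
      rwa [mul_one] at this
    constructor
    · have m1 := hC ξ _ (le_max_right 1 (v ξ) : v ξ ≤ Mv v ξ)
      have m2 : NPS v r (MvPowerSeries.C (4 * ψ ^ 2) * MvPowerSeries.X i) (Mv v ξ) := by
        refine hN.mono _ _ _ (hN.mul _ _ _ _ (hC _ _ e4) hX) ?_
        rw [hri, mul_one_div, div_le_iff₀ (by positivity)]
        calc c2 v ^ 6 * β * Mv v ξ ^ 3 ≤ c2 v ^ 10 * β * Mv v ξ ^ 3 := by
              have := hcp 6 10 (by norm_num)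
              gcongr
          _ = _ := by ring
      exact frame_add hN m1 m2
    · refine hN.mono _ _ _ (hN.mul _ _ _ _ (hC _ _ e5) n6) ?_
      calc c2 v ^ 2 * β * Mv v ξ ^ 2 * c2 v = c2 v ^ 3 * β * Mv v ξ ^ 2 := by ring
        _ ≤ _ := by
          have := hcp 3 10 (by norm_num)
          gcongr

end series

theorem PlC_BT {K : Type} [Field K] [NumberField K] (W : ℕ → Affine K) : PlC (BT W) := by
  refine ⟨fun v => one_le_mul_of_one_le_of_one_le (one_le_pow₀ (one_le_c2 v))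
    (one_le_b01 W v), ?_⟩
  have h1 : FS (K := K) fun v => (10 : ℝ) * Real.log (cst v 2) :=
    (FS_log_cst (K := K) 2).const_mul 10
  have h2 := (FS_log_bet (W 0)).add (FS_log_bet (W 1))
  refine (h1.add h2).mono fun v hv h => ?_
  rw [BT, Real.log_mul (by have := one_le_c2 v; positivity)
    (by have := one_le_b01 W v; positivity), Real.log_pow, b01,
    Real.log_mul (bet_pos _ _).ne' (bet_pos _ _).ne']
  exact_mod_cast h

theorem t_TAY : TAY := by
  classical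
  intro K _ _ W n
  refine ⟨BT W, PlC_BT W, fun ξ ψ hpt => ?_⟩
  have hex : ∀ h : Fin (2 * n + 2), ∃ P : MvPowerSeries (Fin (2 * n + 2)) K,
      P ^ 2 = Bf ((W (h.val % 2)).map (algebraMap K (MvPowerSeries (Fin (2 * n + 2)) K)))
        (MvPowerSeries.C (ξ h.val) +
          MvPowerSeries.C (4 * ψ h.val ^ 2) * MvPowerSeries.X h) ∧
      MvPowerSeries.constantCoeff P = ψ h.val ∧
      ∀ (v : AbsoluteValue K ℝ) (r : Fin (2 * n + 2) → ℝ) (β : ℝ), (∀ i, 0 < r i) →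
        bet (W (h.val % 2)) v ≤ β →
        r h = 1 / (c2 v ^ 10 * β * Mv v (ξ h.val) ^ 2) →
        NPS v r (MvPowerSeries.C (ξ h.val) +
          MvPowerSeries.C (4 * ψ h.val ^ 2) * MvPowerSeries.X h) (c2 v * Mv v (ξ h.val)) ∧
        NPS v r P (c2 v ^ 10 * β * Mv v (ξ h.val) ^ 2) :=
    fun h => tay_point (W (h.val % 2)) h (ξ h.val) (ψ h.val) (hpt h.val h.isLt).1
  choose P hP1 hP2 hP3 using hex
  refine ⟨fun h => if H : h < 2 * n + 2 then MvPowerSeries.C (ξ h) +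
    MvPowerSeries.C (4 * ψ h ^ 2) * MvPowerSeries.X ⟨h, H⟩ else 0,
    fun h => if H : h < 2 * n + 2 then P ⟨h, H⟩ else 0, ⟨?_, ?_, ?_⟩, ?_⟩
  · intro h hh
    simp only [hh, dif_pos]
    exact hP1 ⟨h, hh⟩
  · intro h
    simp only [h.isLt, dif_pos, Fin.eta]
  · intro h
    simp only [h.isLt, dif_pos, Fin.eta]
    exact hP2 h
  · intro v h
    simp only [h.isLt, dif_pos, Fin.eta]
    have hr : ∀ i : Fin (2 * n + 2), 0 < 1 / (BT W v * Mv v (ξ i.val) ^ 2) := by
      intro i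
      have h1 := (PlC_BT W).one_le v
      have h2 := Mv_pos v (ξ i.val)
      positivity
    have := hP3 h v (fun i => 1 / (BT W v * Mv v (ξ i.val) ^ 2)) (b01 W v) hr
      (bet_le_b01 W v h.val) rfl
    refine ⟨(nfr_nps (K := K) v hr).mono _ _ _ this.1 ?_, this.2⟩
    refine mul_le_mul_of_nonneg_right ?_ (Mv_pos v _).le
    have h1 := one_le_c2 v
    have h2 := one_le_b01 W v
    calc c2 v ≤ c2 v ^ 10 := le_self_pow₀ h1 (by norm_num)
      _ ≤ c2 v ^ 10 * b01 W v := le_mul_of_one_le_right (by positivity) h2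

end Pool.Agent.Helper65.SG
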