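import Pool.Agent.Helper65.SG.Goals
import Pool.Agent.Helper65.SG.Tay

/-!
# Project SG, module T: assembly of NQ and QIX
-/

set_option autoImplicit false

open MvPolynomial

namespace Pool.Agent.Helper65.SG

open WeierstrassCurve Height
open Pool.Agent.Helper29.BL Pool.Agent.Helper92.Ru Pool.Agent.Helper42.SG

section lemmas

lemma le_sq (n : ℕ) (e : ℕ → ℕ) {j : ℕ} (hj : j < n) : 4 ^ e j ≤ Helper42.SG.sq n e :=
  Finset.single_le_sum (f := fun j => 4 ^ e j) (fun _ _ => Nat.zero_le _) (Finset.mem_range.2 hj)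

lemma one_le_sq (n : ℕ) (e : ℕ → ℕ) (hn : 1 ≤ n) : 1 ≤ Helper42.SG.sq n e :=
  (Nat.one_le_pow _ _ (by norm_num)).trans (le_sq n e (j := 0) hn)

lemma ddM_le (n M δ : ℕ) (e : ℕ → ℕ) (hn : 1 ≤ n) (h : ℕ) :
    ddM n M δ e h ≤ 4 ^ n * (2 * M + 1 + 2 * n * M + δ) * Helper42.SG.sq n e := by
  unfold ddM
  split_ifs with hh
  · have h1 : 4 ^ e (h / 2) ≤ Helper42.SG.sq n e := le_sq n e (by omega)
    calc 4 ^ n * ((2 * M + 1) * 4 ^ e (h / 2)) ≤ 4 ^ n * ((2 * M + 1) * Helper42.SG.sq n e) := by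
          gcongr
      _ = 4 ^ n * (2 * M + 1) * Helper42.SG.sq n e := by ring
      _ ≤ _ := Nat.mul_le_mul_right _ (Nat.mul_le_mul_left _ (by omega))
  · have h1 := one_le_sq n e hn
    calc 4 ^ n * (2 * n * M + δ) = 4 ^ n * (2 * n * M + δ) * 1 := by ring
      _ ≤ 4 ^ n * (2 * M + 1 + 2 * n * M + δ) * Helper42.SG.sq n e := by gcongr; omega

variable {K : Type} [Field K]

lemma aeval_red (hNQN : NQN) (hNQE : NQE) (hNQV : NQV) [NumberField K] (W : ℕ → Affine K)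
    (n M δ : ℕ) (e : ℕ → ℕ) (c : Idx n M δ e → K) (A : Type) [CommRing A] [Algebra K A]
    (X Ψ : ℕ → A) (hX : OnW W n X Ψ) :
    aeval (fun h : Fin (2 * n + 2) => X h.val) (red W n (Qh W n M δ e c)) =
      ∏ ε : Fin (2 * n) → ℤˣ, P0 W n M δ e c X (sgn n ε Ψ) := by
  rw [hNQV K W n (Qh W n M δ e c) A X Ψ hX (hNQE K W n M δ e c), Qh, map_prod]
  refine Finset.prod_congr rfl fun ε _ => ?_
  rw [Pe]
  refine hNQN K W n M δ e c (GR K n) A
    (aeval (Sum.elim (fun h : Fin (2 * n + 2) => X h.val) fun h : Fin (2 * n + 2) => Ψ h.val))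
    (gX K n) (sgn n ε (gP K n)) X (sgn n ε Ψ) fun h hh => ⟨?_, ?_⟩
  · simp [gX, hh]
  · unfold sgn
    split_ifs with h2
    · simp [gP, hh]
    · simp [gP, hh]

lemma exists_point_ne {n M δ : ℕ} {e : ℕ → ℕ} [Infinite K] (c : Idx n M δ e → K) (hc : c ≠ 0) :
    ∃ ξ0 : Fin 2 → K, ∃ α, ∑ β : Fin 2 → Fin δ, c (α, β) * ∏ i : Fin 2, ξ0 i ^ (β i).val ≠ 0 := by
  classical
  obtain ⟨⟨α, β0⟩, hαβ⟩ := Function.ne_iff.1 hc
  by_contra hcon
  push Not at hcon
  obtain ⟨m, hm⟩ : ∃ m : (Fin 2 → Fin δ) → (Fin 2 →₀ ℕ),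
      m = fun β => Finsupp.equivFunOnFinite.symm (fun i => (β i).val) := ⟨_, rfl⟩
  have hinj : Function.Injective m := by
    intro β β' h
    rw [hm] at h
    have h2 := Finsupp.equivFunOnFinite.symm.injective h
    funext i
    exact Fin.ext (congrFun h2 i)
  obtain ⟨p, hp⟩ : ∃ p : MvPolynomial (Fin 2) K, p = ∑ β, monomial (m β) (c (α, β)) := ⟨_, rfl⟩
  have hp0 : p = 0 := by
    refine MvPolynomial.funext fun x => ?_
    rw [map_zero, hp, map_sum]
    rw [← hcon x α]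
    refine Finset.sum_congr rfl fun β _ => ?_
    rw [eval_monomial, hm]
    congr 1
    rw [Finsupp.prod_fintype _ _ (by simp)]
    rfl
  have : coeff (m β0) p = c (α, β0) := by
    rw [hp, coeff_sum]
    rw [Finset.sum_eq_single β0]
    · simp
    · intro β _ hβ
      rw [coeff_monomial, if_neg fun h => hβ (hinj h)]
    · simp
  rw [hp0, coeff_zero] at this
  exact hαβ this.symm

end lemmas

lemma PlC_mul {K : Type} [Field K] [NumberField K] {B B' : AbsoluteValue K ℝ → ℝ} (h : PlC B)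
    (h' : PlC B') (k : ℕ) : PlC fun v => B v * B' v ^ k := by
  refine ⟨fun v => one_le_mul_of_one_le_of_one_le (h.one_le v) (one_le_pow₀ (h'.one_le v)), ?_⟩
  refine (h.fin.add (h'.fin.const_mul (k : ℝ))).mono fun v _ hv => ?_
  have h1 := h.one_le v
  have h2 := h'.one_le v
  rw [Real.log_mul (by positivity) (by positivity), Real.log_pow]
  exact hv

theorem t_NQ (hNZF : NZF) (hFRPO : FRPO) (hNQB : NQB) (hNQW : NQW) (hNQN : NQN) (hNQE : NQE)
    (hNQV : NQV) (hNQD : NQD) (hNQR : NQR) (hNQH : NQH) : NQ := by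
  classical
  intro K _ _ W hW n M δ hn hM hδ
  obtain ⟨B1, hB1, h1⟩ := hNQB K W n M δ hn
  obtain ⟨B2, hB2, h2⟩ := hNQR K W n
  obtain ⟨k0, hk0⟩ : ∃ k0, k0 = 4 ^ n * (2 * M + 1 + 2 * n * M + δ) := ⟨_, rfl⟩
  obtain ⟨B3, hB3⟩ : ∃ B3 : AbsoluteValue K ℝ → ℝ, B3 = fun v => B1 v * B2 v ^ k0 := ⟨_, rfl⟩
  have hP3 : PlC B3 := hB3 ▸ PlC_mul hB1 hB2 k0
  obtain ⟨⟨C, hC, h3⟩, h4⟩ := hNQH K B3 hP3
  refine ⟨C * 4 ^ n, by positivity, fun e c A hc hA hint hhouse => ?_⟩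
  have hev := fun (A : Type) [CommRing A] [Algebra K A] (X Ψ : ℕ → A) (hX : OnW W n X Ψ) =>
    aeval_red hNQN hNQE hNQV W n M δ e c A X Ψ hX
  -- nonzero at a fixed point
  have hfix : ∀ ξ0 : Fin 2 → K,
      (∃ α, ∑ β : Fin 2 → Fin δ, c (α, β) * ∏ i : Fin 2, ξ0 i ^ (β i).val ≠ 0) →
      ∃ y : ℕ → AlgebraicClosure K, (∀ i : Fin 2, y (2 * n + i.val) =
        algebraMap K (AlgebraicClosure K) (ξ0 i)) ∧
        aeval (fun h : Fin (2 * n + 2) => y h.val) (red W n (Qh W n M δ e c)) ≠ 0 := by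
    rintro ξ0 ⟨α, hα⟩
    obtain ⟨X0, hX0⟩ : ∃ X0 : ℕ → AlgebraicClosure K, X0 = fun i =>
      if H : i < 2 then algebraMap K (AlgebraicClosure K) (ξ0 ⟨i, H⟩) else 0 := ⟨_, rfl⟩
    have hsq : ∀ i : ℕ, ∃ z : AlgebraicClosure K,
        z ^ 2 = Bf (mapW (AlgebraicClosure K) W i) (X0 i) := fun i =>
      IsAlgClosed.exists_pow_nat_eq _ (by norm_num)
    choose Ψ0 hΨ0 using hsq
    obtain ⟨X, Ψ, hXΨ, hx0, hne⟩ := hNZF K W hW n M δ e c (AlgebraicClosure K) X0 Ψ0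
      (fun i _ => hΨ0 i) ⟨α, by
        have : ∑ β : Fin 2 → Fin δ, algebraMap K (AlgebraicClosure K) (c (α, β)) *
            ∏ i : Fin 2, X0 i.val ^ (β i).val =
            algebraMap K (AlgebraicClosure K) (∑ β : Fin 2 → Fin δ, c (α, β) *
              ∏ i : Fin 2, ξ0 i ^ (β i).val) := by
          rw [map_sum]
          refine Finset.sum_congr rfl fun β _ => ?_
          rw [map_mul, map_prod]
          congr 1
          refine Finset.prod_congr rfl fun i _ => ?_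
          rw [map_pow, hX0]
          simp only [i.isLt, dif_pos, Fin.eta]
        rw [this]
        exact (map_ne_zero _).2 hα⟩
    refine ⟨X, fun i => ?_, ?_⟩
    · rw [(hx0 i.val i.isLt).1, hX0]
      simp only [i.isLt, dif_pos, Fin.eta]
    · rw [hev (AlgebraicClosure K) X Ψ hXΨ]
      refine Finset.prod_ne_zero_iff.2 fun ε _ => ?_
      have h5 := hne fun h => if H : h < 2 * n then ε ⟨h, H⟩ else 1
      have h6 : (fun h => if h < 2 * n then
          (((if H : h < 2 * n then ε ⟨h, H⟩ else 1 : ℤˣ) : ℤ) : AlgebraicClosure K) * Ψ h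
            else Ψ h) = sgn n ε Ψ := by
        funext h
        unfold sgn
        split_ifs with h7
        · rfl
        · rfl
      rw [h6] at h5
      exact h5
  refine ⟨red W n (Qh W n M δ e c), ?_, ?_, ?_, hfix, ?_⟩
  · obtain ⟨ξ0, hξ0⟩ := exists_point_ne c hc
    obtain ⟨y, _, hy⟩ := hfix ξ0 hξ0
    intro h0
    rw [h0, map_zero] at hy
    exact hy rfl
  · intro h
    exact hNQD K W n _ h _ (hNQW K W n M δ e c h)
  · have h5 := h3 (2 * n + 2) (Helper42.SG.sq n e) (4 ^ n) A (red W n (Qh W n M δ e c)) hA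
      fun v hv m => ?_
    · refine h5.trans ?_
      push_cast
      have h6 : (Helper42.SG.sq n e : ℝ) ≤ 4 ^ n * (Helper42.SG.sq n e : ℝ) :=
        le_mul_of_one_le_left (by positivity) (one_le_pow₀ (by norm_num))
      calc C * (4 ^ n * A + (Helper42.SG.sq n e : ℝ))
          ≤ C * (4 ^ n * A + 4 ^ n * (Helper42.SG.sq n e : ℝ)) := by gcongr
        _ = C * 4 ^ n * ((Helper42.SG.sq n e : ℝ) + A) := by ring
    · have hs : 0 ≤ cst v (Real.exp A) :=
        zero_le_one.trans (one_le_cst v (Real.one_le_exp hA))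
      have h6 := h1 e c v (cst v (Real.exp A)) hs fun α => h4 (c α) A v (hint α) (hhouse α) hv
      have h7 := h2 (Qh W n M δ e c) v _ (k0 * Helper42.SG.sq n e) h6 fun m hm h => by
        have h8 := hNQW K W n M δ e c h m hm
        have h9 := ddM_le n M δ e hn h.val
        rw [← hk0] at h9
        omega
      have h8 := (hFRPO K v (Fin (2 * n + 2))).2.2 _ _ m h7
      refine h8.trans (le_of_eq ?_)
      rw [hB3, mul_pow, ← pow_mul]
      ring
  · intro A _ _ X Ψ hX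
    refine ⟨∏ ε ∈ (Finset.univ : Finset (Fin (2 * n) → ℤˣ)).erase 1,
      P0 W n M δ e c X (sgn n ε Ψ), ?_⟩
    rw [hev A X Ψ hX, ← Finset.mul_prod_erase Finset.univ _ (Finset.mem_univ 1)]
    congr 1
    have : sgn n (1 : Fin (2 * n) → ℤˣ) Ψ = Ψ := by
      funext h
      unfold sgn
      split_ifs
      · simp
      · rfl
    rw [this]
    rfl

theorem t_QIX (hNQI : NQI) : QIX := by
  classical
  intro K _ _ W n ξ ψ X Ψ Q f g d θ hT hψ hd hQ hf
  refine hNQI K W n ξ ψ X Ψ hT hψ d θ Q fun α hα => ?_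
  rw [hQ, MvPowerSeries.coeff_mul]
  refine Finset.sum_eq_zero fun p hp => ?_
  rw [Finset.HasAntidiagonal.mem_antidiagonal] at hp
  rw [hf p.1 (lt_of_le_of_lt ?_ hα), zero_mul]
  unfold wt
  refine Finset.sum_le_sum fun i _ => ?_
  have h1 : p.1 i ≤ α i := by rw [← hp]; simp
  gcongr

end Pool.Agent.Helper65.SG
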