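import Pool.Agent.Helper42.SG.GoalsT

/-!
# Project SG, module T: the goal NQ (norm polynomial) in small steps

`GR K n` is the polynomial ring in the `X_h` (`Sum.inl h`) and the `Ψ_h` (`Sum.inr h`), `h < 2n+2`.
`Pe ε` is `P^0` at the generic point with the signs `ε`, `Qh = ∏_ε Pe ε`, and `Q = red Qh` where `red`
replaces `Ψ_h^b` by `B(X_h)^(b/2)`.  `Qh` has only even exponents in every `Ψ_h`, so
`Q(X) = ∏_ε P^0(X, εΨ)` for all points of the curves in all algebras.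
-/

set_option autoImplicit false

open MvPolynomial

namespace Pool.Agent.Helper65.SG

open WeierstrassCurve Height
open Pool.Agent.Helper29.BL Pool.Agent.Helper92.Ru Pool.Agent.Helper42.SG

noncomputable section

abbrev GR (K : Type) [Field K] (n : ℕ) : Type := MvPolynomial (Fin (2 * n + 2) ⊕ Fin (2 * n + 2)) K

/-- the generic `X_h` -/
def gX (K : Type) [Field K] (n h : ℕ) : GR K n :=
  if H : h < 2 * n + 2 then X (Sum.inl ⟨h, H⟩) else 0

/-- the generic `Ψ_h` -/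
def gP (K : Type) [Field K] (n h : ℕ) : GR K n :=
  if H : h < 2 * n + 2 then X (Sum.inr ⟨h, H⟩) else 0

/-- signs on the `Ψ_h`, `h < 2n` -/
def sgn {A : Type} [CommRing A] (n : ℕ) (ε : Fin (2 * n) → ℤˣ) (Ψ : ℕ → A) (h : ℕ) : A :=
  if H : h < 2 * n then (((ε ⟨h, H⟩ : ℤˣ) : ℤ) : A) * Ψ h else Ψ h

/-- `P^0(X, Ψ)` over a `K`-algebra, general `M`, `δ` -/
def P0 {K : Type} [Field K] {A : Type} [CommRing A] [Algebra K A] (W : ℕ → Affine K) (n M δ : ℕ)
    (e : ℕ → ℕ) (c : Idx n M δ e → K) (X Ψ : ℕ → A) : A :=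
  Paux (mapW A W) n M δ e (fun α => algebraMap K A (c α)) (fun _ => false) X Ψ

def Pe {K : Type} [Field K] (W : ℕ → Affine K) (n M δ : ℕ) (e : ℕ → ℕ) (c : Idx n M δ e → K)
    (ε : Fin (2 * n) → ℤˣ) : GR K n :=
  P0 W n M δ e c (gX K n) (sgn n ε (gP K n))

def Qh {K : Type} [Field K] (W : ℕ → Affine K) (n M δ : ℕ) (e : ℕ → ℕ) (c : Idx n M δ e → K) :
    GR K n := ∏ ε : Fin (2 * n) → ℤˣ, Pe W n M δ e c ε

/-- the reduction `X^a Ψ^b ↦ X^a ∏ B(X_h)^(b_h / 2)` -/
def red {K : Type} [Field K] (W : ℕ → Affine K) (n : ℕ) (F : GR K n) :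
    MvPolynomial (Fin (2 * n + 2)) K :=
  ∑ m ∈ F.support, C (coeff m F) * ∏ h : Fin (2 * n + 2),
    (X h ^ m (Sum.inl h) *
      Bf (mapW (MvPolynomial (Fin (2 * n + 2)) K) W (h.val % 2)) (X h) ^ (m (Sum.inr h) / 2))

/-- the norm of polynomials (radii `1`): maximum, resp. sum, of the coefficients -/
def NPol {K : Type} [Field K] (v : AbsoluteValue K ℝ) {σ : Type} (f : MvPolynomial σ K)
    (T : ℝ) : Prop := NPS v (fun _ : σ => (1 : ℝ)) (f : MvPowerSeries σ K) T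

/-- the degree of `F` in `(X_h, Ψ_h)` with weights `1, 2` is at most `d` -/
def WD {K : Type} [Field K] {n : ℕ} (h : Fin (2 * n + 2)) (d : ℕ) (F : GR K n) : Prop :=
  ∀ m ∈ F.support, m (Sum.inl h) + 2 * m (Sum.inr h) ≤ d

/-- FRPO: the norm frame of polynomials. Assume FRPS (Helper42.SG, index type `Fintype`): the pullback of a
norm frame under an algebra homomorphism (`MvPolynomial.coeToMvPowerSeries.algHom`) is a norm frame.
`NPol v (X i) 1`. A polynomial of norm `≤ T` has coefficients `≤ T`. -/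
def FRPO : Prop :=
  ∀ (K : Type) [Field K] (v : AbsoluteValue K ℝ) (σ : Type) [Fintype σ],
    NFr v (NPol (K := K) v (σ := σ)) ∧ (∀ i : σ, NPol v (X i : MvPolynomial σ K) 1) ∧
    ∀ (f : MvPolynomial σ K) (T : ℝ) (m : σ →₀ ℕ), NPol v f T → v (coeff m f) ≤ T

/-- NQA: a crude bound for `P^0` in every norm frame in which all coordinates have norm `≤ 1`
(the points need not be on the curves).
Proof. Let `c_v = cst v 40 * bet (W_i) v ^ 2` (product over `i = 0, 1`). In a norm frame: if `t, z` have norm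
`≤ T`, `T ≥ 1`, then `A(t,z)`, `B(t,z)` have norm `≤ c_v T^4` and `C(t,z)` norm `≤ c_v T^6` (natural numbers `k` have
norm `≤ cst v k`; archimedean: sum of the terms; nonarchimedean: maximum). So `N(Φ_e), N(Ψ_e) ≤ c_v^(t_e)`,
`t_(e+1) = 4 t_e + 1`, `t_0 = 0`, `3 t_e + 1 = 4^e`, and `N(R_e) ≤ c_v^(2 t_e)`; `U, T, S` have norm `≤ c_v c_v^(2 t_e)`;
so the two components of the law have norm `≤ (cst v 2) c_v^(2t_e + 1) ≤ (cst v 2) c_v^(4^e)` (`2t_e + 1 ≤ 4^e`).
The product over `h < 2n` of the `M`-th powers: `≤ ∏_h ((cst v 2) c_v^(4^(e(h/2))))^M`. Number of terms (archimedean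
case): `∏_j (4^(e_j) (M+1))^2 δ^2 ≤ C^(sq n e)`, `C` depends on `n, M, δ` (`k ≤ 4^k`, `1 ≤ n ≤ sq n e`). -/
def NQA : Prop :=
  ∀ (K : Type) [Field K] [NumberField K] (W : ℕ → Affine K) (n M δ : ℕ), 1 ≤ n →
    ∃ B : AbsoluteValue K ℝ → ℝ, PlC B ∧ ∀ (e : ℕ → ℕ) (c : Idx n M δ e → K)
      (v : AbsoluteValue K ℝ) (s : ℝ) (A : Type) [CommRing A] [Algebra K A] (N : A → ℝ → Prop)
      (X Ψ : ℕ → A), NFr v N → 0 ≤ s → (∀ α, v (c α) ≤ s) → (∀ h < 2 * n + 2, N (X h) 1) →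
      (∀ h < 2 * n + 2, N (Ψ h) 1) → N (P0 W n M δ e c X Ψ) (s * B v ^ sq n e)

/-- NQB: the norm of `Qh`. Assume FRPO, NQA: each of the `4^n` factors has norm `≤ s B_v^(sq)` (the signs
`±1` have norm `≤ 1`), the product of `2^(2n)` factors. -/
def NQB : Prop :=
  ∀ (K : Type) [Field K] [NumberField K] (W : ℕ → Affine K) (n M δ : ℕ), 1 ≤ n →
    ∃ B : AbsoluteValue K ℝ → ℝ, PlC B ∧ ∀ (e : ℕ → ℕ) (c : Idx n M δ e → K)
      (v : AbsoluteValue K ℝ) (s : ℝ), 0 ≤ s → (∀ α, v (c α) ≤ s) →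
      NPol v (Qh W n M δ e c) (s ^ (4 ^ n) * B v ^ sq n e)

/-- NQW: weighted degrees. `WD h` is additive under products and stable under sums; `WD h 1 (X_h)`,
`WD h 2 (Ψ_h)`, `WD h 0` for constants (in particular the `b_i`), signs and the variables of index `≠ h`.
For `Φ_e(X_h)`, `Ψ_e(X_h)`: `4^e`, `R_e(X_h)`: `2 (4^e - 1)` (induction), both components of the law of `h < 2n`:
`2 · 4^e` with respect to `h` and `2` with respect to the index `2n + h % 2` (`ηR_e`: `2 + 2(4^e - 1)`, resp. `2`).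
So for `h < 2n` the degree of `P^0` is `≤ 4^e + 2·4^e·M = (2M+1) 4^e`, for the indices `2n + i`: `≤ δ + 2M·n` (`n` of
the indices `h < 2n` have `h % 2 = i`). The product of the `2^(2n) = 4^n` factors: `ddM n M δ e h`. -/
def NQW : Prop :=
  ∀ (K : Type) [Field K] (W : ℕ → Affine K) (n M δ : ℕ) (e : ℕ → ℕ) (c : Idx n M δ e → K)
    (h : Fin (2 * n + 2)), WD h (ddM n M δ e h.val) (Qh W n M δ e c)

/-- NQN: naturality of `P^0` under algebra homomorphisms, only the indices `h < 2n+2` matter. -/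
def NQN : Prop :=
  ∀ (K : Type) [Field K] (W : ℕ → Affine K) (n M δ : ℕ) (e : ℕ → ℕ) (c : Idx n M δ e → K)
    (A A' : Type) [CommRing A] [CommRing A'] [Algebra K A] [Algebra K A'] (φ : A →ₐ[K] A')
    (X Ψ : ℕ → A) (X' Ψ' : ℕ → A'), (∀ h < 2 * n + 2, φ (X h) = X' h ∧ φ (Ψ h) = Ψ' h) →
    φ (P0 W n M δ e c X Ψ) = P0 W n M δ e c X' Ψ'

/-- NQE: evenness. Assume NQN.
For `h < 2n` let `φ` be the automorphism `Ψ_h ↦ -Ψ_h` of `GR K n`: `φ (Pe ε) = Pe (ε')`, `ε'` = `ε` with the sign `h`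
changed; so `φ (Qh) = Qh`. For the index `2n + i`: `P^0` depends only on the products `Ψ_h Ψ_(2n + h % 2)`
(see `lawV`), so changing the sign of `Ψ_(2n+i)` has the same effect as changing the signs of all `Ψ_h`, `h < 2n`,
`h % 2 = i`, and again `φ (Qh) = Qh`. The coefficient of `m` in `φ F` is `(-1)^(m (inr h))` times the one of `F`
(`char K = 0`). -/
def NQE : Prop :=
  ∀ (K : Type) [Field K] [NumberField K] (W : ℕ → Affine K) (n M δ : ℕ) (e : ℕ → ℕ)
    (c : Idx n M δ e → K), ∀ m ∈ (Qh W n M δ e c).support, ∀ h, Even (m (Sum.inr h))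

/-- NQV: evaluation of `red F` for `F` with even exponents of the `Ψ_h`, at points of the curves.
(`aeval` of `C a * ∏ ..`; `Ψ_h^b = (Ψ_h^2)^(b/2) = B(X_h)^(b/2)`, `aeval` commutes with `Bf`.) -/
def NQV : Prop :=
  ∀ (K : Type) [Field K] (W : ℕ → Affine K) (n : ℕ) (F : GR K n) (A : Type) [CommRing A]
    [Algebra K A] (X Ψ : ℕ → A), OnW W n X Ψ → (∀ m ∈ F.support, ∀ h, Even (m (Sum.inr h))) →
    aeval (fun h : Fin (2 * n + 2) => X h.val) (red W n F) =
      aeval (Sum.elim (fun h : Fin (2 * n + 2) => X h.val) (fun h : Fin (2 * n + 2) => Ψ h.val)) F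

/-- NQD: degrees of `red F`: `X_h^a B(X_h)^(b/2)` has degree `≤ a + 3 (b/2) ≤ a + 2b` in `X_h`. -/
def NQD : Prop :=
  ∀ (K : Type) [Field K] (W : ℕ → Affine K) (n : ℕ) (F : GR K n) (h : Fin (2 * n + 2)) (d : ℕ),
    WD h d F → (red W n F).degreeOf h ≤ d

/-- NQR: the norm of `red F`. Assume FRPO. `NPol v (B(X_h)) (cst v 8 * bet (W_(h % 2)) v)`, so every term
`C a * ∏ ..` has norm `≤ v a * ∏_h (cst v 8 * bet v)^k`; archimedean case: the sum of the `v a` is `≤ T`;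
nonarchimedean case: maximum. `B v := (cst v 8 * bet (W 0) v * bet (W 1) v) ^ (2n+2)`. -/
def NQR : Prop :=
  ∀ (K : Type) [Field K] [NumberField K] (W : ℕ → Affine K) (n : ℕ),
    ∃ B : AbsoluteValue K ℝ → ℝ, PlC B ∧ ∀ (F : GR K n) (v : AbsoluteValue K ℝ) (T : ℝ) (k : ℕ),
      NPol v F T → (∀ m ∈ F.support, ∀ h, m (Sum.inr h) ≤ 2 * k) →
      NPol v (red W n F) (T * B v ^ k)

/-- NQH: height of a polynomial from bounds of its coefficients at all places; `x` integral with house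
`≤ exp A` has `v(x) ≤ 1` at the nonarchimedean and `v(x) ≤ exp A` at the archimedean places, that is
`v(x) ≤ cst v (exp A)` at all places.
Proof. `log (PH p) = logHeight = PS (log max_m |p_m|_v)` (see `Helper29.BL.PS`: `logHeight` as `PS`, `PS_mono`, `FS_log_iSup`);
`≤ PS (M log (cst v (exp A)) + N log B_v)`, and `PS (log (cst v (exp A))) = A · #archAbsVal`. `C := max (PS (log B)) (#archAbsVal)`
(`PS (log B) ≥ 0`). If `p = 0` the height is `1`. House: the archimedean places are the absolute values of the complex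
embeddings; integral elements have `v ≤ 1` at the finite places. -/
def NQH : Prop :=
  ∀ (K : Type) [Field K] [NumberField K] (B : AbsoluteValue K ℝ → ℝ), PlC B →
    (∃ C : ℝ, 0 ≤ C ∧ ∀ (k N M : ℕ) (A : ℝ) (p : MvPolynomial (Fin k) K), 0 ≤ A →
      (∀ v : AbsoluteValue K ℝ, v ∈ AdmissibleAbsValues.archAbsVal ∨
          v ∈ AdmissibleAbsValues.nonarchAbsVal → ∀ m,
        v (coeff m p) ≤ cst v (Real.exp A) ^ M * B v ^ N) →
      Real.log (PH p) ≤ C * (M * A + N)) ∧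
    ∀ (x : K) (A : ℝ) (v : AbsoluteValue K ℝ), IsIntegral ℤ x → NumberField.house x ≤ Real.exp A →
      (v ∈ AdmissibleAbsValues.archAbsVal ∨ v ∈ AdmissibleAbsValues.nonarchAbsVal) →
      v x ≤ cst v (Real.exp A)

/-- NQI: the index. `Q(ξ_h + 4ψ_h^2 τ_h)` is `shiftP ξ Q` with `t_h = 4ψ_h^2 τ_h`: the coefficient of
`τ^α` is `∏ (4ψ_h^2)^(α_h)` times the coefficient of `t^α` in `shiftP ξ Q`, and `4ψ_h^2 ≠ 0`. (Both sides are algebra
homomorphisms `MvPolynomial → MvPowerSeries`: compare `aeval (fun h => X h)` with the composition of `shiftP ξ`, the scaling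
`aeval (fun h => C (4ψ_h^2) * X h)` of polynomials and the coercion to power series.) -/
def NQI : Prop :=
  ∀ (K : Type) [Field K] [NumberField K] (W : ℕ → Affine K) (n : ℕ) (ξ ψ : ℕ → K)
    (X Ψ : ℕ → MvPowerSeries (Fin (2 * n + 2)) K), Tay W n ξ ψ X Ψ →
    (∀ h < 2 * n + 2, ψ h ≠ 0) → ∀ (d : Fin (2 * n + 2) → ℕ) (θ : ℝ)
      (Q : MvPolynomial (Fin (2 * n + 2)) K),
      (∀ α, wt d α < θ → MvPowerSeries.coeff α
        (aeval (fun h : Fin (2 * n + 2) => X h.val) Q : MvPowerSeries (Fin (2 * n + 2)) K) = 0) →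
      IndGe d (fun h => ξ h.val) θ Q

end

end Pool.Agent.Helper65.SG
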