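import Pool.Agent.Helper42.SG.Defs
import Pool.Agent.Helper29.BL.PS

/-!
# Project SG, module T: the norm frame of power series, square roots of power series
-/

set_option autoImplicit false

namespace Pool.Agent.Helper65.SG

open WeierstrassCurve Height
open Pool.Agent.Helper29.BL Pool.Agent.Helper92.Ru Pool.Agent.Helper42.SG

section nps

variable {K : Type} [Field K] {v : AbsoluteValue K ℝ} {σ : Type}

lemma rpw_add (r : σ → ℝ) (α β : σ →₀ ℕ) : rpw r (α + β) = rpw r α * rpw r β := by
  classical
  unfold rpw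
  exact Finsupp.prod_add_index' (by simp) (by intro a b c; exact pow_add _ _ _)

lemma rpw_zero (r : σ → ℝ) : rpw r (0 : σ →₀ ℕ) = 1 := by
  simp [rpw]

lemma rpw_pos {r : σ → ℝ} (hr : ∀ i, 0 < r i) (α : σ →₀ ℕ) : 0 < rpw r α :=
  Finset.prod_pos fun i _ => pow_pos (hr i) _

lemma rpw_single (r : σ → ℝ) (i : σ) (k : ℕ) : rpw r (Finsupp.single i k) = r i ^ k := by
  classical
  simp [rpw]

lemma nonarch_sum (hv : IsNonarchimedean v) {ι : Type} (s : Finset ι) (g : ι → K) (T : ℝ)
    (hT : 0 ≤ T) (h : ∀ i ∈ s, v (g i) ≤ T) : v (∑ i ∈ s, g i) ≤ T := by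
  classical
  induction s using Finset.induction_on with
  | empty => simpa using hT
  | insert a s ha ih =>
    rw [Finset.sum_insert ha]
    refine (hv _ _).trans (max_le (h a (Finset.mem_insert_self a s)) (ih fun i hi => h i ?_))
    exact Finset.mem_insert_of_mem hi

/-- Power series with radii `r > 0` form a norm frame. -/
theorem nfr_nps (v : AbsoluteValue K ℝ) {r : σ → ℝ} (hr : ∀ i, 0 < r i) :
    NFr v (NPS (K := K) v r) := by
  classical
  have hterm : ∀ (f : MvPowerSeries σ K) (α : σ →₀ ℕ), 0 ≤ v (MvPowerSeries.coeff α f) * rpw r α :=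
    fun f α => mul_nonneg (v.nonneg _) (rpw_pos hr α).le
  refine ⟨?_, ?_, ?_, ?_, ?_, ?_⟩
  · intro k
    refine ⟨v.nonneg _, fun _ α => ?_, fun _ S => ?_⟩
    · rw [MvPowerSeries.algebraMap_apply, Algebra.algebraMap_self_apply, MvPowerSeries.coeff_C]
      split_ifs with h
      · subst h; simp [rpw_zero]
      · simp
    · calc ∑ α ∈ S, v (MvPowerSeries.coeff α ((algebraMap K (MvPowerSeries σ K)) k)) * rpw r α
          = ∑ α ∈ S, if α = 0 then v k else 0 := by
            refine Finset.sum_congr rfl fun α _ => ?_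
            rw [MvPowerSeries.algebraMap_apply, Algebra.algebraMap_self_apply,
              MvPowerSeries.coeff_C]
            split_ifs with h
            · subst h; simp [rpw_zero]
            · simp
        _ ≤ v k := by
            rw [Finset.sum_ite_eq']
            split_ifs
            · exact le_rfl
            · exact v.nonneg _
  · intro f g S T hf hg
    refine ⟨mul_nonneg hf.1 hg.1, fun hv α => ?_, fun hv F => ?_⟩
    · have h1 := hf.2.1 hv
      have h2 := hg.2.1 hv
      rw [← le_div_iff₀ (rpw_pos hr α), MvPowerSeries.coeff_mul]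
      refine nonarch_sum hv _ _ _ (div_nonneg (mul_nonneg hf.1 hg.1) (rpw_pos hr α).le) ?_
      rintro ⟨β, γ⟩ hp
      rw [Finset.HasAntidiagonal.mem_antidiagonal] at hp
      simp only at hp ⊢
      rw [map_mul, le_div_iff₀ (rpw_pos hr α), ← hp, rpw_add]
      calc v (MvPowerSeries.coeff β f) * v (MvPowerSeries.coeff γ g) * (rpw r β * rpw r γ)
          = (v (MvPowerSeries.coeff β f) * rpw r β) * (v (MvPowerSeries.coeff γ g) * rpw r γ) := by
            ring
        _ ≤ S * T := mul_le_mul (h1 β) (h2 γ) (hterm g γ) hf.1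
    · have h1 := hf.2.2 hv
      have h2 := hg.2.2 hv
      set P : Finset ((σ →₀ ℕ) × (σ →₀ ℕ)) := F.biUnion Finset.HasAntidiagonal.antidiagonal with hP
      calc ∑ α ∈ F, v (MvPowerSeries.coeff α (f * g)) * rpw r α
          ≤ ∑ α ∈ F, ∑ p ∈ Finset.HasAntidiagonal.antidiagonal α,
              (v (MvPowerSeries.coeff p.1 f) * rpw r p.1) *
                (v (MvPowerSeries.coeff p.2 g) * rpw r p.2) := by
            refine Finset.sum_le_sum fun α _ => ?_
            rw [MvPowerSeries.coeff_mul]
            calc v (∑ p ∈ Finset.HasAntidiagonal.antidiagonal α,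
                  MvPowerSeries.coeff p.1 f * MvPowerSeries.coeff p.2 g) * rpw r α
                ≤ (∑ p ∈ Finset.HasAntidiagonal.antidiagonal α,
                  v (MvPowerSeries.coeff p.1 f * MvPowerSeries.coeff p.2 g)) * rpw r α :=
                  mul_le_mul_of_nonneg_right (v.sum_le _ _) (rpw_pos hr α).le
              _ = _ := by
                  rw [Finset.sum_mul]
                  refine Finset.sum_congr rfl fun p hp => ?_
                  rw [Finset.HasAntidiagonal.mem_antidiagonal] at hp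
                  rw [← hp, rpw_add, map_mul]
                  ring
        _ = ∑ p ∈ P, (v (MvPowerSeries.coeff p.1 f) * rpw r p.1) *
                (v (MvPowerSeries.coeff p.2 g) * rpw r p.2) := by
            rw [hP, Finset.sum_biUnion]
            intro a _ b _ hab
            rw [Function.onFun, Finset.disjoint_left]
            intro p hp hq
            rw [Finset.HasAntidiagonal.mem_antidiagonal] at hp hq
            exact hab (hp.symm.trans hq)
        _ ≤ ∑ p ∈ P.image Prod.fst ×ˢ P.image Prod.snd,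
              (v (MvPowerSeries.coeff p.1 f) * rpw r p.1) *
                (v (MvPowerSeries.coeff p.2 g) * rpw r p.2) := by
            refine Finset.sum_le_sum_of_subset_of_nonneg ?_ fun p _ _ =>
              mul_nonneg (hterm _ _) (hterm _ _)
            intro p hp
            rw [Finset.mem_product]
            exact ⟨Finset.mem_image_of_mem _ hp, Finset.mem_image_of_mem _ hp⟩
        _ = (∑ β ∈ P.image Prod.fst, v (MvPowerSeries.coeff β f) * rpw r β) *
              ∑ γ ∈ P.image Prod.snd, v (MvPowerSeries.coeff γ g) * rpw r γ := by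
            rw [Finset.sum_product, Finset.sum_mul_sum]
        _ ≤ S * T := mul_le_mul (h1 _) (h2 _) (Finset.sum_nonneg fun _ _ => hterm _ _) hf.1
  · intro f g S T hf hg
    refine ⟨add_nonneg hf.1 hg.1, fun hv α => ?_, fun hv F => ?_⟩
    · rw [map_add]
      calc v (MvPowerSeries.coeff α f + MvPowerSeries.coeff α g) * rpw r α
          ≤ (v (MvPowerSeries.coeff α f) + v (MvPowerSeries.coeff α g)) * rpw r α :=
            mul_le_mul_of_nonneg_right (v.add_le _ _) (rpw_pos hr α).le
        _ ≤ S + T := by rw [add_mul]; exact add_le_add (hf.2.1 hv α) (hg.2.1 hv α)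
    · calc ∑ α ∈ F, v (MvPowerSeries.coeff α (f + g)) * rpw r α
          ≤ ∑ α ∈ F, (v (MvPowerSeries.coeff α f) * rpw r α +
              v (MvPowerSeries.coeff α g) * rpw r α) := by
            refine Finset.sum_le_sum fun α _ => ?_
            rw [map_add, ← add_mul]
            exact mul_le_mul_of_nonneg_right (v.add_le _ _) (rpw_pos hr α).le
        _ ≤ S + T := by
            rw [Finset.sum_add_distrib]
            exact add_le_add (hf.2.2 hv F) (hg.2.2 hv F)
  · intro hv f g S T hf hg
    refine ⟨le_max_of_le_left hf.1, fun _ α => ?_, fun h => absurd hv h⟩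
    rw [map_add]
    calc v (MvPowerSeries.coeff α f + MvPowerSeries.coeff α g) * rpw r α
        ≤ max (v (MvPowerSeries.coeff α f)) (v (MvPowerSeries.coeff α g)) * rpw r α :=
          mul_le_mul_of_nonneg_right (hv _ _) (rpw_pos hr α).le
      _ ≤ max S T := by
          rw [max_mul_of_nonneg _ _ (rpw_pos hr α).le]
          exact max_le_max (hf.2.1 hv α) (hg.2.1 hv α)
  · intro f S T hf hST
    exact ⟨hf.1.trans hST, fun hv α => (hf.2.1 hv α).trans hST,
      fun hv F => (hf.2.2 hv F).trans hST⟩
  · intro f T hf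
    exact hf.1

/-- the coefficients of a series of norm `≤ T` -/
theorem coeff_le_of_nps {r : σ → ℝ} (hr : ∀ i, 0 < r i) {f : MvPowerSeries σ K} {T : ℝ}
    (h : NPS v r f T) (α : σ →₀ ℕ) : v (MvPowerSeries.coeff α f) ≤ T / rpw r α := by
  rw [le_div_iff₀ (rpw_pos hr α)]
  by_cases hv : IsNonarchimedean v
  · exact h.2.1 hv α
  · have := h.2.2 hv {α}
    simpa using this

/-- the norm of a variable -/
theorem nps_X {r : σ → ℝ} (hr : ∀ i, 0 < r i) (i : σ) :
    NPS v r (MvPowerSeries.X i : MvPowerSeries σ K) (r i) := by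
  classical
  refine ⟨(hr i).le, fun _ α => ?_, fun _ S => ?_⟩
  · rw [MvPowerSeries.coeff_X]
    split_ifs with h
    · subst h; simp [rpw_single]
    · simpa using (hr i).le
  · calc ∑ α ∈ S, v (MvPowerSeries.coeff α (MvPowerSeries.X i : MvPowerSeries σ K)) * rpw r α
        = ∑ α ∈ S, if α = Finsupp.single i 1 then r i else 0 := by
          refine Finset.sum_congr rfl fun α _ => ?_
          rw [MvPowerSeries.coeff_X]
          split_ifs with h
          · subst h; simp [rpw_single]
          · simp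
      _ ≤ r i := by
          rw [Finset.sum_ite_eq']
          split_ifs
          · exact le_rfl
          · exact (hr i).le

end nps

section sqrt

variable {K : Type} [Field K] {σ : Type}

/-- the iteration `Y_(k+1) = 1 - g Y_k^2` -/
noncomputable def YY (g : MvPowerSeries σ K) : ℕ → MvPowerSeries σ K
  | 0 => 1
  | k + 1 => 1 - g * YY g k ^ 2

lemma YY_diff (g : MvPowerSeries σ K) (k : ℕ) : g ^ (k + 1) ∣ YY g (k + 1) - YY g k := by
  induction k with
  | zero => simp [YY]
  | succ k ih =>
    obtain ⟨c, hc⟩ := ih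
    refine ⟨-(c * (YY g (k + 1) + YY g k)), ?_⟩
    have : YY g (k + 1 + 1) - YY g (k + 1) =
        -(g * ((YY g (k + 1) - YY g k) * (YY g (k + 1) + YY g k))) := by
      conv_lhs => rw [YY, YY]
      have h2 : YY g (k + 1) = 1 - g * YY g k ^ 2 := rfl
      rw [h2]
      ring
    rw [this, hc]
    ring

lemma coeff_dvd {g : MvPowerSeries σ K} (hg : MvPowerSeries.constantCoeff g = 0) {k : ℕ}
    {f : MvPowerSeries σ K} (hf : g ^ k ∣ f) {α : σ →₀ ℕ} (hα : α.degree < k) :
    MvPowerSeries.coeff α f = 0 := by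
  classical
  obtain ⟨c, rfl⟩ := hf
  rw [MvPowerSeries.coeff_mul]
  refine Finset.sum_eq_zero fun p hp => ?_
  rw [Finset.HasAntidiagonal.mem_antidiagonal] at hp
  rw [MvPowerSeries.coeff_eq_zero_of_constantCoeff_nilpotent (m := 1) (by simpa using hg),
    zero_mul]
  have : p.1.degree ≤ α.degree := by
    rw [← hp, map_add]; omega
  omega

/-- the limit of the iteration -/
noncomputable def Ylim (g : MvPowerSeries σ K) : MvPowerSeries σ K :=
  fun α => MvPowerSeries.coeff α (YY g (α.degree + 1))

lemma coeff_YY_eq {g : MvPowerSeries σ K} (hg : MvPowerSeries.constantCoeff g = 0) {α : σ →₀ ℕ}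
    {k : ℕ} (hk : α.degree < k) :
    MvPowerSeries.coeff α (YY g k) = MvPowerSeries.coeff α (Ylim g) := by
  have : ∀ m : ℕ, MvPowerSeries.coeff α (YY g (α.degree + 1 + m)) =
      MvPowerSeries.coeff α (Ylim g) := by
    intro m
    induction m with
    | zero => rfl
    | succ m ih =>
      rw [← ih, ← sub_eq_zero, ← map_sub]
      exact coeff_dvd hg (YY_diff g (α.degree + 1 + m)) (by omega)
  obtain ⟨m, rfl⟩ := Nat.exists_eq_add_of_le hk
  exact this m

lemma Ylim_eq {g : MvPowerSeries σ K} (hg : MvPowerSeries.constantCoeff g = 0) :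
    Ylim g = 1 - g * Ylim g ^ 2 := by
  classical
  ext α
  have h1 : ∀ f f' : MvPowerSeries σ K, (∀ β : σ →₀ ℕ, β.degree ≤ α.degree →
      MvPowerSeries.coeff β f = MvPowerSeries.coeff β f') → ∀ h h' : MvPowerSeries σ K,
      (∀ β : σ →₀ ℕ, β.degree ≤ α.degree →
      MvPowerSeries.coeff β h = MvPowerSeries.coeff β h') → ∀ β : σ →₀ ℕ, β.degree ≤ α.degree →
      MvPowerSeries.coeff β (f * h) = MvPowerSeries.coeff β (f' * h') := by
    intro f f' hf h h' hh β hβ
    rw [MvPowerSeries.coeff_mul, MvPowerSeries.coeff_mul]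
    refine Finset.sum_congr rfl fun p hp => ?_
    rw [Finset.HasAntidiagonal.mem_antidiagonal] at hp
    have h3 : p.1.degree + p.2.degree = β.degree := by rw [← hp, map_add]
    rw [hf p.1 (by omega), hh p.2 (by omega)]
  have h2 : ∀ β : σ →₀ ℕ, β.degree ≤ α.degree → MvPowerSeries.coeff β (Ylim g) =
      MvPowerSeries.coeff β (YY g (α.degree + 1)) :=
    fun β hβ => (coeff_YY_eq hg (by omega)).symm
  have h3 := h1 _ _ h2 _ _ h2
  have h4 := h1 g g (fun _ _ => rfl) _ _ h3 α le_rfl
  rw [map_sub, pow_two, h4, ← pow_two, ← map_sub]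
  have : (1 - g * YY g (α.degree + 1) ^ 2) = YY g (α.degree + 1 + 1) := rfl
  rw [this, coeff_YY_eq hg (by omega)]

lemma nps_YY {v : AbsoluteValue K ℝ} {r : σ → ℝ} (hr : ∀ i, 0 < r i) {g : MvPowerSeries σ K}
    (h : NPS v r g (1 / 4)) (k : ℕ) : NPS v r (YY g k) 2 := by
  have hN := nfr_nps (K := K) v hr
  have h1 : NPS v r (1 : MvPowerSeries σ K) 1 := by
    have := hN.const 1
    simpa using this
  have h2 : NPS v r (-1 : MvPowerSeries σ K) 1 := by
    have := hN.const (-1)
    simpa using this
  induction k with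
  | zero => exact hN.mono _ _ _ h1 (by norm_num)
  | succ k ih =>
    have h3 := hN.mul _ _ _ _ h2 (hN.mul _ _ _ _ h (hN.mul _ _ _ _ ih ih))
    have h4 := hN.add _ _ _ _ h1 h3
    have h5 : YY g (k + 1) = 1 + -1 * (g * (YY g k * YY g k)) := by
      rw [YY]; ring
    rw [h5]
    exact hN.mono _ _ _ h4 (by norm_num)

lemma nps_YY' {v : AbsoluteValue K ℝ} (hv : IsNonarchimedean v) {r : σ → ℝ} (hr : ∀ i, 0 < r i)
    {g : MvPowerSeries σ K} (h : NPS v r g 1) (k : ℕ) : NPS v r (YY g k) 1 := by
  have hN := nfr_nps (K := K) v hr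
  have h1 : NPS v r (1 : MvPowerSeries σ K) 1 := by
    have := hN.const 1
    simpa using this
  have h2 : NPS v r (-1 : MvPowerSeries σ K) 1 := by
    have := hN.const (-1)
    simpa using this
  induction k with
  | zero => exact h1
  | succ k ih =>
    have h3 := hN.mul _ _ _ _ h2 (hN.mul _ _ _ _ h (hN.mul _ _ _ _ ih ih))
    have h4 := hN.max hv _ _ _ _ h1 h3
    have h5 : YY g (k + 1) = 1 + -1 * (g * (YY g k * YY g k)) := by
      rw [YY]; ring
    rw [h5]
    exact hN.mono _ _ _ h4 (by norm_num)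

lemma nps_lim {v : AbsoluteValue K ℝ} {r : σ → ℝ} {g : MvPowerSeries σ K}
    (hg : MvPowerSeries.constantCoeff g = 0) {T : ℝ} (h : ∀ k, NPS v r (YY g k) T) :
    NPS v r (Ylim g) T := by
  classical
  refine ⟨(h 0).1, fun hv α => ?_, fun hv S => ?_⟩
  · rw [← coeff_YY_eq hg (Nat.lt_succ_self α.degree)]
    exact (h _).2.1 hv α
  · refine le_trans (le_of_eq ?_) ((h (S.sup (fun α => α.degree) + 1)).2.2 hv S)
    refine Finset.sum_congr rfl fun α hα => ?_
    rw [coeff_YY_eq hg (Nat.lt_succ_of_le (Finset.le_sup (f := fun α => α.degree) hα))]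

/-- Square roots: if `g` has no constant term there is `y` with `(1 + 2 g y)^2 = 1 + 4 g` and `y` has
norm `≤ 2` if `g` has norm `≤ 1/4`, norm `≤ 1` if `g` has norm `≤ 1` and `v` is nonarchimedean. -/
theorem sqrt_series (g : MvPowerSeries σ K) (hg : MvPowerSeries.constantCoeff g = 0) :
    ∃ y : MvPowerSeries σ K, (1 + 2 * g * y) ^ 2 = 1 + 4 * g ∧
      ∀ (v : AbsoluteValue K ℝ) (r : σ → ℝ), (∀ i, 0 < r i) →
        (NPS v r g (1 / 4) → NPS v r y 2) ∧
        (IsNonarchimedean v → NPS v r g 1 → NPS v r y 1) := by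
  refine ⟨Ylim g, ?_, fun v r hr => ⟨fun h => nps_lim hg (nps_YY hr h),
    fun hv h => nps_lim hg (nps_YY' hv hr h)⟩⟩
  have h := Ylim_eq hg
  have h2 : Ylim g + g * Ylim g ^ 2 = 1 := by
    linear_combination h
  linear_combination (4 * g) * h2

end sqrt

end Pool.Agent.Helper65.SG
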